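import Pool.Agent.Lib.MP_d6bd81_co.Tools

/-!
# The explicit `(26_3)` configuration

`D` has four complete quadrangles (points `10–13`, `14–17`, `18–21`, `22–25`), whose `24` sides pass
through the ten further points `0, …, 9`, and two further lines `{0, 1, 2}`, `{3, 4, 5}`.
-/

namespace Pool.Agent.MPd6bd81

open AffineSubspace

/-- the 26 lines of `D`, as triples of points -/
def dl : List (ℕ × ℕ × ℕ) := [(0, 1, 2), (3, 4, 5), (1, 10, 11), (8, 10, 12), (5, 10, 13), (0, 11, 12), (7, 11, 13), (9, 12, 13), (7, 14, 15), (9, 14, 16), (8, 14, 17), (1, 15, 16), (2, 15, 17), (7, 16, 17), (8, 18, 19), (2, 18, 20), (5, 18, 21), (6, 19, 20), (4, 19, 21), (0, 20, 21), (9, 22, 23), (3, 22, 24), (6, 22, 25), (6, 23, 24), (3, 23, 25), (4, 24, 25)]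
/-- the 26 pencils of `D`: the three lines through each point -/
def pl : List (ℕ × ℕ × ℕ) := [(0, 5, 19), (0, 2, 11), (0, 12, 15), (1, 21, 24), (1, 18, 25), (1, 4, 16), (17, 22, 23), (6, 8, 13), (3, 10, 14), (7, 9, 20), (2, 3, 4), (2, 5, 6), (3, 5, 7), (4, 6, 7), (8, 9, 10), (8, 11, 12), (9, 11, 13), (10, 12, 13), (14, 15, 16), (14, 17, 18), (15, 17, 19), (16, 18, 19), (20, 21, 22), (20, 23, 24), (21, 23, 25), (22, 24, 25)]
def w2l : List ℤ := [-1, -1, -1, -1, -1, -2, -1, -1, -1, -1, -1, -89, -39, -2, -1, -8, -4, -17, -1, -17, -2, -25, -1, -1, -1, -3]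
def c2l : List (ℤ × ℤ) := [(3, 2), (-3, 3), (-9, 4), (-2, -1), (3, 3), (11, 10), (-1, -3), (0, -2), (3, 1), (3, 0), (1, 2), (289, 128), (139, 28), (17, 14), (2, 2), (9, 2), (15, -6), (90, -22), (-3, -2), (-45, -31), (-9, -1), (27, 34), (2, -1), (-2, -5), (0, -1), (-6, -11)]
def w3l : List ℤ := [7, 6, 3, 1, 5, 36, 15, 25, -1, 1, 1, -4, -29, 41, 1, 8, 19, 43, 55, 2, 2, 2, 6, -2, 4, -2]
def c3l : List (ℤ × ℤ × ℤ) := [(-7, 1, 6890740), (-1, -4, -2615813), (-5, 1, 3733170), (-3, 1, 3836758), (-1, -2, -8036074), (-36, 25, 8764190), (-1, 18, -17368000), (-3, 14, -33440148), (-1, 2, -4024416), (-3, 2, 2838384), (-2, 1, 3134892), (-5, 2, -427585), (-37, 10, 8652568), (13, 2, 28966136), (1, 1, 1029294), (2, -1, 2238780), (-3, -14, -2427178), (12, -5, 10465355), (-7, -41, -10977404), (-2, -1, 3695870), (0, 1, -3023211), (1, 0, 1593393), (1, 2, -4453029), (-1, 2, -4360999), (1, -1, 1337788), (-1, 4, -7128605)]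

/-- incidence of `D` as a Boolean function -/
def incB (P l : ℕ) : Bool :=
  let t := dl.getD l (0, 0, 0)
  P == t.1 || P == t.2.1 || P == t.2.2

/-- The configuration `D`. -/
def D : Config 26 26 3 3 where
  inc P l := incB P l = true
  two_le_q := by norm_num
  two_le_k := by norm_num
  point_deg := by
    intro P
    rw [Set.ncard_eq_toFinset_card', Set.toFinset_ofPred]
    revert P
    decide +kernel
  line_deg := by
    intro l
    rw [Set.ncard_eq_toFinset_card', Set.toFinset_ofPred]
    revert l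
    decide +kernel
  linear := by
    have key : ∀ l l' : Fin 26, l ≠ l' →
        (Finset.univ.filter fun P : Fin 26 => incB P l = true ∧ incB P l' = true).card ≤ 1 := by
      decide +kernel
    intro P P' l l' hne h1 h2 h3 h4
    by_contra hl
    have := key l l' hl
    rw [Finset.card_le_one] at this
    exact hne (this P (by simp [h1, h3]) P' (by simp [h2, h4]))

instance (P l : Fin 26) : Decidable (D.inc P l) := inferInstanceAs (Decidable (incB P l = true))
instance (P l : Fin 26) : Decidable (D.dual.inc P l) :=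
  inferInstanceAs (Decidable (incB l P = true))

/-- weights and coordinates of the points of `D` in the plane -/
def w2 (i : Fin 26) : ℤ := w2l.getD i 0
def c2 (i : Fin 26) (j : Fin 2) : ℤ :=
  let t := c2l.getD i (0, 0)
  if j = 0 then t.1 else t.2
/-- weights and coordinates of the points of the dual of `D` in space -/
def w3 (i : Fin 26) : ℤ := w3l.getD i 0
def c3 (i : Fin 26) (j : Fin 3) : ℤ :=
  let t := c3l.getD i (0, 0, 0)
  if j = 0 then t.1 else if j = 1 then t.2.1 else t.2.2

def a2 (l : Fin 26) : Fin 26 := Fin.ofNat 26 (dl.getD l (0, 0, 0)).1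
def b2 (l : Fin 26) : Fin 26 := Fin.ofNat 26 (dl.getD l (0, 0, 0)).2.1
def a3 (l : Fin 26) : Fin 26 := Fin.ofNat 26 (pl.getD l (0, 0, 0)).1
def b3 (l : Fin 26) : Fin 26 := Fin.ofNat 26 (pl.getD l (0, 0, 0)).2.1

instance {N m : ℕ} (w : Fin N → ℤ) (c : Fin N → Fin m → ℤ) (x y z : Fin N) (i j : Fin m) :
    Decidable (cond w c x y z i j) := by unfold cond; infer_instance

/-- A planar realization of `D`. -/
noncomputable def R2 : Realization D 2 :=
  mkRealization D w2 c2 a2 b2 (by decide +kernel) (by decide +kernel) (by decide +kernel)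
    (by decide +kernel) (by decide +kernel)

/-- A realization of the dual of `D` in space. -/
noncomputable def R3 : Realization D.dual 3 :=
  mkRealization D.dual w3 c3 a3 b3 (by decide +kernel) (by decide +kernel) (by decide +kernel)
    (by decide +kernel) (by decide +kernel)

end Pool.Agent.MPd6bd81
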