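import Mathlib

/-!
# Combinatorial configurations, their duals, geometric realizations and dimension
-/

namespace Pool.Agent.MPd6bd81

/-- A combinatorial configuration `(p_q, n_k)`: an incidence structure with point set `Fin p` and
line set `Fin n`; every point is incident with exactly `q` lines, every line with exactly `k`
points, `q, k ≥ 2`, and two distinct points share at most one line. -/
structure Config (p n q k : ℕ) where
  /-- `inc P l`: the point `P` is incident with the line `l` -/
  inc : Fin p → Fin n → Prop
  two_le_q : 2 ≤ q
  two_le_k : 2 ≤ k
  point_deg : ∀ P, {l | inc P l}.ncard = q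
  line_deg : ∀ l, {P | inc P l}.ncard = k
  linear : ∀ P P' l l', P ≠ P' → inc P l → inc P' l → inc P l' → inc P' l' → l = l'

variable {p n q k : ℕ}

/-- The dual configuration: points and lines are exchanged. -/
def Config.dual (C : Config p n q k) : Config n p k q where
  inc l P := C.inc P l
  two_le_q := C.two_le_k
  two_le_k := C.two_le_q
  point_deg := C.line_deg
  line_deg := C.point_deg
  linear := by
    intro l l' P P' hl h1 h2 h3 h4
    by_contra hne
    exact hl (C.linear P P' l l' hne h1 h3 h2 h4)

/-- A geometric realization of `C` in `ℝ^m`: points go injectively to points, lines go injectively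
to straight lines, and a point lies on a line if and only if they are incident in `C`. -/
structure Realization (C : Config p n q k) (m : ℕ) where
  pt : Fin p → EuclideanSpace ℝ (Fin m)
  ln : Fin n → AffineSubspace ℝ (EuclideanSpace ℝ (Fin m))
  pt_inj : Function.Injective pt
  ln_inj : Function.Injective ln
  ln_nonempty : ∀ l, (ln l : Set (EuclideanSpace ℝ (Fin m))).Nonempty
  ln_dim : ∀ l, Module.finrank ℝ (ln l).direction = 1
  mem_iff : ∀ P l, pt P ∈ ln l ↔ C.inc P l

/-- The dimension of the affine hull of a realization. -/
noncomputable def Realization.hullDim {C : Config p n q k} {m : ℕ} (R : Realization C m) : ℕ :=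
  Module.finrank ℝ (affineSpan ℝ (Set.range R.pt)).direction

/-- `C` has at least one geometric realization. -/
def Config.Realizable (C : Config p n q k) : Prop := ∃ m, Nonempty (Realization C m)

/-- The set of affine hull dimensions of the realizations of `C`. -/
def Config.dims (C : Config p n q k) : Set ℕ := {d | ∃ m, ∃ R : Realization C m, R.hullDim = d}

/-- The dimension of `C`: the largest `d` such that some realization of `C`, in some Euclidean
space, has an affine hull of dimension `d`. -/
noncomputable def Config.dim (C : Config p n q k) : ℕ := sSup C.dims

lemma Realization.hullDim_le {C : Config p n q k} {m : ℕ} (R : Realization C m) :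
    R.hullDim ≤ p := by
  unfold Realization.hullDim
  rw [direction_affineSpan]
  rcases p with _ | p
  · have : Set.range R.pt = ∅ := Set.range_eq_empty _
    rw [this, vectorSpan_empty]; simp
  · exact (finrank_vectorSpan_range_le ℝ R.pt (by simp)).trans (Nat.le_succ p)

/-- The supremum in the definition of `dim` is a maximum for realizable configurations. -/
lemma Config.dim_isGreatest (C : Config p n q k) (h : C.Realizable) :
    IsGreatest C.dims C.dim := by
  have hne : C.dims.Nonempty := by
    obtain ⟨m, ⟨R⟩⟩ := h
    exact ⟨R.hullDim, m, R, rfl⟩
  have hbdd : BddAbove C.dims := by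
    refine ⟨p, ?_⟩
    rintro d ⟨m, R, rfl⟩
    exact R.hullDim_le
  exact ⟨Nat.sSup_mem hne hbdd, fun d hd => le_csSup hbdd hd⟩

end Pool.Agent.MPd6bd81
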