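import Pool.Agent.Lib.MP_d6bd81_co.Defs

/-!
Tools: the integer criterion for collinearity, realizations from integer data, and the closure
rules in an arbitrary realization.
-/

namespace Pool.Agent.MPd6bd81

open AffineSubspace

variable {m : ℕ}

lemma mem_line_iff (x y z : EuclideanSpace ℝ (Fin m)) (hxy : x ≠ y) :
    z ∈ line[ℝ, x, y] ↔ ∀ i j, (y i - x i) * (z j - x j) = (y j - x j) * (z i - x i) := by
  rw [mem_affineSpan_pair_iff_exists_lineMap_eq]
  constructor
  · rintro ⟨t, rfl⟩ i j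
    simp only [AffineMap.lineMap_apply, vsub_eq_sub, vadd_eq_add, PiLp.add_apply, PiLp.smul_apply,
      PiLp.sub_apply, smul_eq_mul]
    ring
  · intro h
    have hex : ∃ i, y i ≠ x i := by
      by_contra hne
      push Not at hne
      exact hxy (by ext i; exact (hne i).symm)
    obtain ⟨i, hi⟩ := hex
    have hi' : y i - x i ≠ 0 := sub_ne_zero.mpr hi
    refine ⟨(z i - x i) / (y i - x i), ?_⟩
    ext j
    simp only [AffineMap.lineMap_apply, vsub_eq_sub, vadd_eq_add, PiLp.add_apply, PiLp.smul_apply,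
      PiLp.sub_apply, smul_eq_mul]
    have := h i j
    field_simp
    linarith

/-- the integer collinearity condition for points given by homogeneous integer coordinates -/
def cond {N : ℕ} (w : Fin N → ℤ) (c : Fin N → Fin m → ℤ) (x y z : Fin N) (i j : Fin m) : Prop :=
  (c y i * w x - c x i * w y) * (c z j * w x - c x j * w z) =
    (c y j * w x - c x j * w y) * (c z i * w x - c x i * w z)

/-- the point with homogeneous coordinates `(w, c)` -/
noncomputable def hpt {N : ℕ} (w : Fin N → ℤ) (c : Fin N → Fin m → ℤ) (i : Fin N) :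
    EuclideanSpace ℝ (Fin m) := WithLp.toLp 2 (fun j => (c i j : ℝ) / (w i : ℝ))

lemma hpt_apply {N : ℕ} (w : Fin N → ℤ) (c : Fin N → Fin m → ℤ) (i : Fin N) (j : Fin m) :
    hpt w c i j = (c i j : ℝ) / (w i : ℝ) := rfl

lemma hpt_mem_iff {N : ℕ} (w : Fin N → ℤ) (c : Fin N → Fin m → ℤ) (hw : ∀ i, w i ≠ 0)
    (x y z : Fin N) (hxy : hpt w c x ≠ hpt w c y) :
    hpt w c z ∈ line[ℝ, hpt w c x, hpt w c y] ↔ ∀ i j, cond w c x y z i j := by
  rw [mem_line_iff _ _ _ hxy]
  refine forall_congr' fun i => forall_congr' fun j => ?_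
  simp only [hpt_apply]
  have h1 : (w x : ℝ) ≠ 0 := by exact_mod_cast hw x
  have h2 : (w y : ℝ) ≠ 0 := by exact_mod_cast hw y
  have h3 : (w z : ℝ) ≠ 0 := by exact_mod_cast hw z
  unfold cond
  have key : ((c y i : ℝ) / w y - c x i / w x) * (c z j / w z - c x j / w x) -
      (c y j / w y - c x j / w x) * (c z i / w z - c x i / w x) =
      (((c y i * w x - c x i * w y) * (c z j * w x - c x j * w z) : ℝ) -
        (c y j * w x - c x j * w y) * (c z i * w x - c x i * w z)) / (w x * w x * w y * w z) := by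
    field_simp
  constructor
  · intro h
    have h0 := sub_eq_zero.mpr h
    rw [key, div_eq_zero_iff] at h0
    rcases h0 with h0 | h0
    · have := sub_eq_zero.mp h0
      exact_mod_cast this
    · exact absurd h0 (by positivity)
  · intro h
    apply sub_eq_zero.mp
    rw [key]
    have : ((c y i * w x - c x i * w y) * (c z j * w x - c x j * w z) : ℝ) =
        (c y j * w x - c x j * w y) * (c z i * w x - c x i * w z) := by exact_mod_cast h
    rw [this, sub_self, zero_div]

lemma hpt_ne {N : ℕ} (w : Fin N → ℤ) (c : Fin N → Fin m → ℤ) (hw : ∀ i, w i ≠ 0)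
    (x y : Fin N) (j : Fin m) (h : c x j * w y ≠ c y j * w x) : hpt w c x ≠ hpt w c y := by
  intro heq
  have h0 := congrArg (fun v => v j) heq
  simp only [hpt_apply] at h0
  have h1 : (w x : ℝ) ≠ 0 := by exact_mod_cast hw x
  have h2 : (w y : ℝ) ≠ 0 := by exact_mod_cast hw y
  rw [div_eq_div_iff h1 h2] at h0
  exact h (by exact_mod_cast h0)

/-- A realization from integer data. -/
noncomputable def mkRealization {p n q k : ℕ} (C : Config p n q k) (w : Fin p → ℤ)
    (c : Fin p → Fin m → ℤ) (a b : Fin n → Fin p)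
    (hw : ∀ i, w i ≠ 0)
    (hinj : ∀ x y, x ≠ y → ∃ j, c x j * w y ≠ c y j * w x)
    (hab : ∀ l, a l ≠ b l)
    (hinc : ∀ P l, (∀ i j, cond w c (a l) (b l) P i j) ↔ C.inc P l)
    (hln : ∀ l l', C.inc (a l) l' → C.inc (b l) l' → l = l') : Realization C m where
  pt := hpt w c
  ln l := line[ℝ, hpt w c (a l), hpt w c (b l)]
  pt_inj := by
    intro x y h
    by_contra hne
    obtain ⟨j, hj⟩ := hinj x y hne
    exact hpt_ne w c hw x y j hj h
  ln_inj := by
    intro l l' h
    have h' : line[ℝ, hpt w c (a l), hpt w c (b l)] = line[ℝ, hpt w c (a l'), hpt w c (b l')] := h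
    have hne : ∀ l, hpt w c (a l) ≠ hpt w c (b l) := by
      intro l
      obtain ⟨j, hj⟩ := hinj _ _ (hab l)
      exact hpt_ne w c hw _ _ j hj
    apply hln
    · rw [← hinc, ← hpt_mem_iff w c hw _ _ _ (hne l'), ← h']
      exact left_mem_affineSpan_pair _ _ _
    · rw [← hinc, ← hpt_mem_iff w c hw _ _ _ (hne l'), ← h']
      exact right_mem_affineSpan_pair _ _ _
  ln_nonempty l := ⟨_, left_mem_affineSpan_pair _ _ _⟩
  ln_dim l := by
    obtain ⟨j, hj⟩ := hinj _ _ (hab l)
    have hne := hpt_ne w c hw _ _ j hj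
    rw [direction_affineSpan, vectorSpan_pair]
    exact finrank_span_singleton (vsub_ne_zero.mpr hne)
  mem_iff P l := by
    obtain ⟨j, hj⟩ := hinj _ _ (hab l)
    rw [hpt_mem_iff w c hw _ _ _ (hpt_ne w c hw _ _ j hj), hinc]

section closure

variable {p n q k : ℕ} {C : Config p n q k} (R : Realization C m)

/-- Two distinct points of a configuration line span the line. -/
lemma Realization.ln_eq {l : Fin n} {P P' : Fin p} (h1 : C.inc P l) (h2 : C.inc P' l)
    (hne : P ≠ P') : R.ln l = line[ℝ, R.pt P, R.pt P'] := by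
  have hP := (R.mem_iff P l).mpr h1
  have hP' := (R.mem_iff P' l).mpr h2
  have hle : line[ℝ, R.pt P, R.pt P'] ≤ R.ln l := affineSpan_pair_le_of_mem_of_mem hP hP'
  have hne' : R.pt P ≠ R.pt P' := fun h => hne (R.pt_inj h)
  symm
  apply AffineSubspace.eq_of_direction_eq_of_nonempty_of_le _ ⟨_, left_mem_affineSpan_pair _ _ _⟩
    hle
  have hf : Module.finrank ℝ (line[ℝ, R.pt P, R.pt P']).direction = 1 := by
    rw [direction_affineSpan, vectorSpan_pair]
    exact finrank_span_singleton (vsub_ne_zero.mpr hne')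
  apply Submodule.eq_of_le_of_finrank_le (AffineSubspace.direction_le hle)
  rw [hf, R.ln_dim l]

/-- Closure rule 1: two points of a line determine the line. -/
lemma Realization.rule1 {S : AffineSubspace ℝ (EuclideanSpace ℝ (Fin m))} {l : Fin n}
    {P P' Q : Fin p} (h1 : C.inc P l) (h2 : C.inc P' l) (h3 : C.inc Q l) (hne : P ≠ P')
    (hP : R.pt P ∈ S) (hP' : R.pt P' ∈ S) : R.pt Q ∈ S := by
  have hQ := (R.mem_iff Q l).mpr h3
  rw [R.ln_eq h1 h2 hne] at hQ
  exact (affineSpan_pair_le_of_mem_of_mem hP hP') hQ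

/-- Closure rule 2: a triangle `x y z` whose sides (configuration lines) contain `u ∈ xy`,
`v ∈ xz`, `t ∈ yz`; if `u, v` lie on a configuration line `l'` not through `t`, then
`x, y, z` lie in every affine subspace containing `u, v, t`. -/
lemma Realization.rule2 {S : AffineSubspace ℝ (EuclideanSpace ℝ (Fin m))}
    {x y z u v t : Fin p} {l1 l2 l3 l' : Fin n}
    (hx1 : C.inc x l1) (hy1 : C.inc y l1) (hu1 : C.inc u l1)
    (hx2 : C.inc x l2) (hz2 : C.inc z l2) (hv2 : C.inc v l2)
    (hy3 : C.inc y l3) (hz3 : C.inc z l3) (ht3 : C.inc t l3)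
    (hu' : C.inc u l') (hv' : C.inc v l') (ht' : ¬ C.inc t l')
    (hxy : x ≠ y) (hxz : x ≠ z) (hyz : y ≠ z) (huv : u ≠ v)
    (hu : R.pt u ∈ S) (hv : R.pt v ∈ S) (ht : R.pt t ∈ S) :
    R.pt x ∈ S ∧ R.pt y ∈ S ∧ R.pt z ∈ S := by
  set T : AffineSubspace ℝ (EuclideanSpace ℝ (Fin m)) :=
    affineSpan ℝ (Set.range ![R.pt x, R.pt y, R.pt z]) with hT
  have hxT : R.pt x ∈ T := subset_affineSpan ℝ _ ⟨0, rfl⟩
  have hyT : R.pt y ∈ T := subset_affineSpan ℝ _ ⟨1, rfl⟩
  have hzT : R.pt z ∈ T := subset_affineSpan ℝ _ ⟨2, rfl⟩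
  have huT : R.pt u ∈ T := R.rule1 hx1 hy1 hu1 hxy hxT hyT
  have hvT : R.pt v ∈ T := R.rule1 hx2 hz2 hv2 hxz hxT hzT
  have htT : R.pt t ∈ T := R.rule1 hy3 hz3 ht3 hyz hyT hzT
  have hTdim : Module.finrank ℝ T.direction ≤ 2 := by
    rw [hT, direction_affineSpan]
    exact finrank_vectorSpan_range_le ℝ _ (by simp)
  set U : AffineSubspace ℝ (EuclideanSpace ℝ (Fin m)) :=
    affineSpan ℝ (Set.range ![R.pt u, R.pt v, R.pt t]) with hU
  have huU : R.pt u ∈ U := subset_affineSpan ℝ _ ⟨0, rfl⟩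
  have hUT : U ≤ T := by
    rw [hU, affineSpan_le]
    rintro _ ⟨i, rfl⟩
    fin_cases i
    · exact huT
    · exact hvT
    · exact htT
  have hUS : U ≤ S := by
    rw [hU, affineSpan_le]
    rintro _ ⟨i, rfl⟩
    fin_cases i
    · exact hu
    · exact hv
    · exact ht
  have hind : AffineIndependent ℝ ![R.pt u, R.pt v, R.pt t] := by
    rw [affineIndependent_iff_not_collinear_set]
    intro hcol
    have hmem : R.pt t ∈ line[ℝ, R.pt u, R.pt v] :=
      hcol.mem_affineSpan_of_mem_of_ne (by simp) (by simp) (by simp)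
        (fun h => huv (R.pt_inj h))
    rw [← R.ln_eq hu' hv' huv] at hmem
    exact ht' ((R.mem_iff t l').mp hmem)
  have hUdim : Module.finrank ℝ U.direction = 2 := by
    rw [hU, direction_affineSpan]
    exact hind.finrank_vectorSpan (by simp)
  have heq : U = T := by
    apply AffineSubspace.eq_of_direction_eq_of_nonempty_of_le _ ⟨_, huU⟩ hUT
    apply Submodule.eq_of_le_of_finrank_le (AffineSubspace.direction_le hUT)
    rw [hUdim]; exact hTdim
  rw [← heq] at hxT hyT hzT
  exact ⟨hUS hxT, hUS hyT, hUS hzT⟩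

end closure

end Pool.Agent.MPd6bd81
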